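import Pool.Agent.Helper8.SPV.Stmts
import Pool.Agent.Helper8.SPV.PLib

/-! # The number of poles is the degree -/

set_option autoImplicit false

namespace Pool.Agent.Helper8.SPV

open Polynomial
open IntermediateField (adjoin)

theorem pl4_ext {k K : Type} [Field k] [Field K] [Algebra k K] {p q : Pl k K} (h : p.O = q.O) :
    p = q := by
  cases p
  cases q
  cases h
  rfl

/-- an element of all places is integral -/
theorem pl4_int {k K : Type} [Field k] [Field K] [Algebra k K] (f : K)
    (h : ∀ p : Pl k K, f ∈ p.O) : IsIntegral k f := by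
  have h1 : f ∈ (integralClosure (Subring.closure (Set.range (algebraMap k K))) K).toSubring := by
    rw [← iInf_valuationSubring_superset, Subring.mem_iInf]
    rintro ⟨V, hV⟩
    by_cases hT : V = ⊤
    · subst hT
      exact ValuationSubring.mem_top f
    · exact h ⟨V, fun c => hV ⟨c, rfl⟩, hT⟩
  have h2 : IsIntegral (Subring.closure (Set.range (algebraMap k K))) f := h1
  obtain ⟨p, hp, hpu⟩ := h2
  have h4 : ∀ a : Subring.closure (Set.range (algebraMap k K)), ∃ c : k,
      algebraMap k K c = a := by
    rintro ⟨a, ha⟩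
    have : Subring.closure (Set.range (algebraMap k K)) ≤ (algebraMap k K).range := by
      rw [Subring.closure_le]
      rintro _ ⟨c, rfl⟩
      exact ⟨c, rfl⟩
    exact this ha
  choose e he using h4
  have h5 : p.map (algebraMap (Subring.closure (Set.range (algebraMap k K))) K) ∈
      Polynomial.lifts (algebraMap k K) := by
    rw [Polynomial.lifts_iff_coeff_lifts]
    intro n
    rw [Polynomial.coeff_map]
    exact ⟨e (p.coeff n), he _⟩
  obtain ⟨q, hq1, -, hq2⟩ := Polynomial.lifts_and_natDegree_eq_and_monic h5 (hp.map _)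
  refine ⟨q, hq2, ?_⟩
  rw [Polynomial.eval₂_eq_eval_map, hq1, ← Polynomial.eval₂_eq_eval_map]
  exact hpu

/-- the order of a polynomial in `f`, when `f` has a pole -/
theorem pl4_poly {k K : Type} [Field k] [Field K] [Algebra k K] {p : Pl k K} (hL : p.Laws)
    {f : K} (hf : p.ord f < 0) (r : k[X]) (hr : r ≠ 0) :
    aeval f r ≠ 0 ∧ p.ord (aeval f r) = r.natDegree * p.ord f := by
  have hf0 : f ≠ 0 := by
    rintro rfl
    rw [Pl.ord_zero] at hf
    exact lt_irrefl _ hf
  induction hn : r.natDegree using Nat.strong_induction_on generalizing r with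
  | _ n ih =>
    have hlead : algebraMap k K r.leadingCoeff ≠ 0 :=
      (_root_.map_ne_zero _).2 (leadingCoeff_ne_zero.2 hr)
    have hsplit : aeval f r = algebraMap k K r.leadingCoeff * f ^ n + aeval f r.eraseLead := by
      conv_lhs => rw [← eraseLead_add_C_mul_X_pow r]
      rw [map_add, map_mul, aeval_C, map_pow, aeval_X, hn, add_comm]
    have ho : p.ord (algebraMap k K r.leadingCoeff * f ^ n) = n * p.ord f := by
      rw [hL.ord_mul _ _ hlead (pow_ne_zero _ hf0), hL.ord_const, hL.ord_pow, zero_add]
    have h3 := hL.ord_add_of_lt (algebraMap k K r.leadingCoeff * f ^ n) (aeval f r.eraseLead)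
      (mul_ne_zero hlead (pow_ne_zero _ hf0)) (by
        by_cases he : r.eraseLead = 0
        · left
          rw [he, map_zero]
        · right
          have hlt : r.eraseLead.natDegree < n := by
            have h1 := eraseLead_natDegree_lt_or_eraseLead_eq_zero r
            rcases h1 with h1 | h1
            · rwa [hn] at h1
            · exact absurd h1 he
          obtain ⟨-, h5⟩ := ih _ hlt r.eraseLead he rfl
          rw [h5, ho]
          have : (r.eraseLead.natDegree : ℤ) < n := by exact_mod_cast hlt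
          nlinarith)
    rw [← hsplit, ho] at h3
    exact h3

/-- if `f` generates, its poles: one pole of order one -/
theorem pl4_gen {k M : Type} [Field k] [Field M] [Algebra k M] (hL : ∀ p : Pl k M, p.Laws)
    (f : M) (hf : Transcendental k f)
    (hgen : ∀ g : M, ∃ r s : k[X], g = aeval f r / aeval f s) :
    Pl.poles (k := k) f = 1 := by
  have hf0 : f ≠ 0 := by
    rintro rfl
    exact hf isAlgebraic_zero
  obtain ⟨q, hq⟩ : ∃ q : Pl k M, f ∉ q.O := by
    by_contra hcon
    push Not at hcon
    exact hf (pl4_int f hcon).isAlgebraic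
  have hneg : ∀ p : Pl k M, f ∉ p.O → p.ord f < 0 := by
    intro p hp
    rw [(hL p).mem_iff f hf0] at hp
    omega
  have hall : ∀ g : M, g ≠ 0 → ∃ n : ℤ, ∀ p : Pl k M, f ∉ p.O → p.ord g = n * p.ord f := by
    intro g hg
    obtain ⟨r, s, hrs⟩ := hgen g
    have hs : s ≠ 0 := by
      rintro rfl
      rw [map_zero, div_zero] at hrs
      exact hg hrs
    have hr : r ≠ 0 := by
      rintro rfl
      rw [map_zero, zero_div] at hrs
      exact hg hrs
    refine ⟨r.natDegree - s.natDegree, fun p hp => ?_⟩
    obtain ⟨h1, h2⟩ := pl4_poly (hL p) (hneg p hp) r hr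
    obtain ⟨h3, h4⟩ := pl4_poly (hL p) (hneg p hp) s hs
    rw [hrs, (hL p).ord_div _ _ h1 h3, h2, h4]
    ring
  have hone : ∀ p : Pl k M, f ∉ p.O → p.ord f = -1 := by
    intro p hp
    obtain ⟨n, hn⟩ := hall p.z (hL p).z_ne
    have h1 := hn p hp
    rw [(hL p).ord_z] at h1
    have h2 := hneg p hp
    have h3 : p.ord f ∣ 1 := ⟨n, by rw [h1]; ring⟩
    rcases Int.isUnit_iff.mp (isUnit_of_dvd_one h3) with h4 | h4 <;> omega
  have huniq : ∀ p : Pl k M, f ∉ p.O → p = q := by
    intro p hp
    apply pl4_ext
    ext g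
    by_cases hg : g = 0
    · rw [hg]
      exact ⟨fun _ => q.O.zero_mem, fun _ => p.O.zero_mem⟩
    · obtain ⟨n, hn⟩ := hall g hg
      rw [(hL p).mem_iff g hg, (hL q).mem_iff g hg, hn p hp, hn q hq, hone p hp, hone q hq]
  unfold Pl.poles
  rw [finsum_eq_single _ q]
  · rw [hone q hq]
    norm_num
  · intro p hp
    have h1 : f ∈ p.O := by
      by_contra h2
      exact hp (huniq p h2)
    rw [(hL p).mem_iff f hf0] at h1
    exact max_eq_left (by omega)

theorem st_PL4 (h1 : ST_PL1) (_h6 : ST_PL6) (hM : ST_PLM) (_hR : ST_PLR) (hS : ST_SUBFF) :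
    ST_PL4 := by
  intro k K _ _ _ _ _ hK f hf
  obtain ⟨h2, h3⟩ := hS k K hK (adjoin k {f})
    ⟨f, IntermediateField.mem_adjoin_simple_self k f, hf⟩
  have h4 := hM k K hK (adjoin k {f}) h2 (IntermediateField.AdjoinSimple.gen k f)
  rw [IntermediateField.AdjoinSimple.coe_gen] at h4
  rw [h4, pl4_gen (fun p => h1 k _ h2 p) (IntermediateField.AdjoinSimple.gen k f), mul_one]
  · intro h
    apply hf
    obtain ⟨r, hr, hr0⟩ := h
    refine ⟨r, hr, ?_⟩
    have := aeval_algebraMap_apply K (IntermediateField.AdjoinSimple.gen k f) r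
    rw [IntermediateField.AdjoinSimple.algebraMap_gen, hr0, map_zero] at this
    exact this
  · intro g
    obtain ⟨r, s, hrs⟩ := IntermediateField.mem_adjoin_simple_iff k (g : K) |>.mp g.2
    refine ⟨r, s, ?_⟩
    apply Subtype.ext
    rw [hrs]
    push_cast
    have h5 : ∀ r : k[X], ((aeval (IntermediateField.AdjoinSimple.gen k f) r :
        adjoin k {f}) : K) = aeval f r := by
      intro r
      have := aeval_algebraMap_apply K (IntermediateField.AdjoinSimple.gen k f) r
      rw [IntermediateField.AdjoinSimple.algebraMap_gen] at this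
      exact this.symm
    rw [h5, h5]

end Pool.Agent.Helper8.SPV
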