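import Pool.Agent.Helper8.SPV.Stmts
import Pool.Agent.Helper8.SPV.PLib

/-! # Riemann-Hurwitz (inequality) -/

set_option autoImplicit false

namespace Pool.Agent.Helper8.SPV

theorem rh_ext {k K : Type} [Field k] [Field K] [Algebra k K] {p q : Pl k K} (h : p.O = q.O) :
    p = q := by
  cases p
  cases q
  cases h
  rfl

theorem st_RH (_h1 : ST_PL1) (h6 : ST_PL6) (hR : ST_PLR) (h7 : ST_PL7) (hD : ST_DER1) :
    ST_RH := by
  classical
  intro k K _ _ _ _ _ hK M hM δ δ' hδ hres
  have hδ' : δ' ≠ 0 := by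
    rintro rfl
    obtain ⟨x, hx, -⟩ := hM
    obtain ⟨c, hc⟩ := (hD k K hK).1 δ hδ (x : K) (by rw [hres]; rfl)
    apply hx
    have : x = algebraMap k M c := Subtype.ext hc
    rw [this]
    exact isAlgebraic_algebraMap c
  choose ρ hρ1 hρ2 hρ3 using hR k K hK M hM
  -- the local computation
  have hloc : ∀ P : Pl k K, P.ord ((ρ P).z : K) * (ρ P).rr δ' ≤ P.rr δ := by
    intro P
    have he := hρ2 P
    obtain ⟨h2, h3⟩ := (hD k K hK).2.2.2 δ hδ P ((ρ P).z : K) (by omega)
    rw [hres, hρ3 P (δ' (ρ P).z)] at h3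
    have h4 : (ρ P).rr δ' = -(ρ P).ord (δ' (ρ P).z) := rfl
    rw [h4, mul_neg, h3]
    omega
  have hiff : ∀ (P : Pl k K) (q : Pl k M), P.O.comap (algebraMap M K) = q.O ↔ ρ P = q := by
    intro P q
    constructor
    · intro h
      exact rh_ext ((hρ1 P).symm.trans h)
    · rintro rfl
      exact hρ1 P
  have hf1 : {p : Pl k K | p.rr δ ≠ 0}.Finite := h7 k K hK δ hδ
  have hf2 : {q : Pl k M | q.rr δ' ≠ 0}.Finite := h7 k M hM δ' hδ'
  have hf3 : ∀ q : Pl k M, {P : Pl k K | ρ P = q}.Finite := by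
    intro q
    have := (h6 k K hK M hM q).1
    simpa only [hiff] using this
  have hf4 : {P : Pl k K | (ρ P).rr δ' ≠ 0}.Finite := by
    have : {P : Pl k K | (ρ P).rr δ' ≠ 0} = ⋃ q ∈ {q : Pl k M | q.rr δ' ≠ 0}, {P | ρ P = q} := by
      ext P
      simp
    rw [this]
    exact hf2.biUnion fun q _ => hf3 q
  have hsum : ∀ q : Pl k M, ∑ P ∈ (hf3 q).toFinset, P.ord (q.z : K) =
      (Module.finrank M K : ℤ) := by
    intro q
    rw [← (h6 k K hK M hM q).2]
    simp only [hiff]
    exact (finsum_mem_eq_finite_toFinset_sum _ (hf3 q)).symm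
  let T : Finset (Pl k K) := hf1.toFinset ∪ hf4.toFinset
  have hk : Pl.kap δ = ∑ P ∈ T, P.rr δ := by
    unfold Pl.kap
    apply finsum_eq_sum_of_support_subset
    intro P hP
    simp only [T, Finset.coe_union, Set.Finite.coe_toFinset]
    exact Or.inl hP
  have hk' : Pl.kap δ' = ∑ q ∈ hf2.toFinset, q.rr δ' := by
    unfold Pl.kap
    apply finsum_eq_sum_of_support_subset
    intro q hq
    rw [Set.Finite.coe_toFinset]
    exact hq
  rw [hk, hk', Finset.mul_sum]
  calc ∑ q ∈ hf2.toFinset, (Module.finrank M K : ℤ) * q.rr δ'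
      = ∑ q ∈ hf2.toFinset, ∑ P ∈ (hf3 q).toFinset, P.ord ((ρ P).z : K) * (ρ P).rr δ' := by
        refine Finset.sum_congr rfl fun q _ => ?_
        rw [← hsum q, Finset.sum_mul]
        refine Finset.sum_congr rfl fun P hP => ?_
        have : ρ P = q := by simpa using hP
        rw [this]
    _ = ∑ P ∈ hf4.toFinset, P.ord ((ρ P).z : K) * (ρ P).rr δ' := by
        rw [← Finset.sum_fiberwise_of_maps_to (s := hf4.toFinset) (t := hf2.toFinset) (g := ρ)]
        · refine Finset.sum_congr rfl fun q hq => ?_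
          refine Finset.sum_congr ?_ fun _ _ => rfl
          ext P
          simp only [Set.Finite.mem_toFinset, Set.mem_ofPred_eq, Finset.mem_filter] at hq ⊢
          constructor
          · rintro rfl
            exact ⟨hq, rfl⟩
          · exact fun h => h.2
        · intro P hP
          simpa using hP
    _ = ∑ P ∈ T, P.ord ((ρ P).z : K) * (ρ P).rr δ' := by
        apply Finset.sum_subset
        · exact Finset.subset_union_right
        · intro P _ hP
          have : (ρ P).rr δ' = 0 := by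
            by_contra h
            exact hP (by simpa using h)
          rw [this, mul_zero]
    _ ≤ ∑ P ∈ T, P.rr δ := Finset.sum_le_sum fun P _ => hloc P

end Pool.Agent.Helper8.SPV
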